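import Pool.Agent.Q231.LMD.Stubs

set_option autoImplicit false

/-!
Project LMD (helper277): a selection gives a hitting set.
-/

namespace Pool.Agent.Q231.LMD

open Pool.Agent.NPC Pool.Agent.NPC.Cnt Pool.Agent.H49R2.PC

namespace H1aux

theorem mem1 (L : List Pt) (p : Pt) (t : ℕ) : sh p (tabE t).1 ∈ att (spL L p t) := by
  simp [att, spL]

theorem mem2 (L : List Pt) (p : Pt) (t : ℕ)
    (h : 12 ≤ (tabE t).2.1.2.2 ∨ (p.1 + (tabE t).2.1.1, p.2 + (tabE t).2.1.2.1) ∈ L) :
    sh p (tabE t).2.1 ∈ att (spL L p t) := by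
  have h1 : ¬ ((tabE t).2.1.2.2 < 12 ∧ (p.1 + (tabE t).2.1.1, p.2 + (tabE t).2.1.2.1) ∉ L) := by
    rintro ⟨a, b⟩
    rcases h with h | h
    · omega
    · exact b h
  unfold att spL
  simp only [if_neg h1]
  simp

/-- The least index of a corner in `I`. -/
def k0 (I : Finset Pt) (t : Pt × ℕ) : ℕ :=
  if (corners t).getD 0 (0, 0) ∈ I then 0 else if (corners t).getD 1 (0, 0) ∈ I then 1 else 2

/-- The two other indices. -/
def two (k : ℕ) : List ℕ := if k = 0 then [1, 2] else if k = 1 then [0, 2] else [0, 1]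

theorem two_length (k : ℕ) : (two k).length = 2 := by
  unfold two
  split_ifs <;> rfl

theorem mem_two {k j : ℕ} (hj : j < 3) (hk : k < 3) (h : j ≠ k) : j ∈ two k := by
  unfold two
  interval_cases k <;> interval_cases j <;> simp at h ⊢

theorem k0_lt (I : Finset Pt) (t : Pt × ℕ) : k0 I t < 3 := by
  unfold k0
  split_ifs <;> omega

theorem k0_mem (I : Finset Pt) (t : Pt × ℕ) (h : ∃ s ∈ corners t, s ∈ I) :
    (corners t).getD (k0 I t) (0, 0) ∈ I := by
  unfold k0
  split_ifs with h1 h2
  · exact h1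
  · exact h2
  · obtain ⟨s, hs, hI⟩ := h
    unfold corners at hs h1 h2 ⊢
    by_cases h0 : t.2 = 0
    · rw [if_pos h0] at hs h1 h2 ⊢
      simp only [List.mem_cons, List.not_mem_nil, or_false] at hs
      rcases hs with rfl | rfl | rfl
      · exact absurd hI h1
      · exact absurd hI h2
      · exact hI
    · rw [if_neg h0] at hs h1 h2 ⊢
      simp only [List.mem_cons, List.not_mem_nil, or_false] at hs
      rcases hs with rfl | rfl | rfl
      · exact absurd hI h1
      · exact absurd hI h2
      · exact hI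

theorem len_flatMap {α β : Type} (l : List α) (f : α → List β) (c : ℕ)
    (h : ∀ x, (f x).length = c) : (l.flatMap f).length = c * l.length := by
  induction l with
  | nil => simp
  | cons a l ih =>
    rw [List.flatMap_cons, List.length_append, h, ih, List.length_cons]
    ring

/-- The selectors of a ring. -/
def ringT (I : Finset Pt) (s : Pt) : List ℕ :=
  (List.range 6).map (fun i => vl s.1 s.2 (if s ∈ I then 2 * i + 1 else 2 * i))

/-- The selectors of a triangle. -/
def triT (I : Finset Pt) (t : Pt × ℕ) : List ℕ :=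
  (two (k0 I t)).map (fun k => vl t.1.1 t.1.2 (12 + 3 * t.2 + k))

theorem tab1 : ∀ t < 12, (tabE t).1 = (0, 0, t) ∧ (tabE t).2.1 = (0, 0, (t + 1) % 12) := by
  decide

theorem tab3 : ∀ τ < 2, ∀ k < 3, (tabE (15 + 6 * τ + k)).1 = (0, 0, 12 + 3 * τ + k) ∧
    (tabE (15 + 6 * τ + k)).2.1 = (0, 0, 12 + 3 * τ + (k + 1) % 3) := by
  decide

theorem tab4 : ∀ τ < 2, ∀ k < 3, (tabE (18 + 6 * τ + k)).1 = (0, 0, 12 + 3 * τ + k) ∧
    (tabE (18 + 6 * τ + k)).2.1.2.2 < 12 ∧ (tabE (18 + 6 * τ + k)).2.1.2.2 % 2 = 1 := by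
  decide

theorem tab4c (τ : ℕ) (hτ : τ < 2) (k : ℕ) (hk : k < 3) (p : Pt) :
    (p.1 + (tabE (18 + 6 * τ + k)).2.1.1, p.2 + (tabE (18 + 6 * τ + k)).2.1.2.1) =
      (corners (p, τ)).getD k (0, 0) := by
  interval_cases τ <;> interval_cases k <;> rfl

end H1aux

open H1aux in
theorem H1_ok : S_H1 := by
  intro L K hG hS
  obtain ⟨I, hIL, hind, hcor⟩ := hS
  set T : Finset ℕ := (L.flatMap (ringT I) ++ K.flatMap (triT I)).toFinset with hT
  have hR : ∀ s ∈ L, ∀ j < 12, (j % 2 = 1 ↔ s ∈ I) → vl s.1 s.2 j ∈ T := by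
    intro s hs j hj hp
    rw [hT, List.mem_toFinset, List.mem_append]
    refine Or.inl (List.mem_flatMap.2 ⟨s, hs, List.mem_map.2 ⟨j / 2, List.mem_range.2 (by omega), ?_⟩⟩)
    congr 1
    by_cases h : s ∈ I
    · rw [if_pos h]
      have := hp.2 h
      omega
    · rw [if_neg h]
      have : ¬ j % 2 = 1 := fun h1 => h (hp.1 h1)
      omega
  have hK : ∀ t ∈ K, ∀ k < 3, k ≠ k0 I t → vl t.1.1 t.1.2 (12 + 3 * t.2 + k) ∈ T := by
    intro t ht k hk hne
    rw [hT, List.mem_toFinset, List.mem_append]
    exact Or.inr (List.mem_flatMap.2 ⟨t, ht, List.mem_map.2 ⟨k, mem_two hk (k0_lt I t) hne, rfl⟩⟩)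
  refine ⟨T, ?_, ?_⟩
  · intro e he
    obtain ⟨⟨p, t⟩, hi, rfl⟩ := List.mem_map.1 he
    simp only
    unfold idx at hi
    rw [List.mem_append, List.mem_append] at hi
    rcases hi with hi | hi | hi
    · obtain ⟨s, hs, hi⟩ := List.mem_flatMap.1 hi
      obtain ⟨j, hj, hij⟩ := List.mem_map.1 hi
      simp only [Prod.mk.injEq] at hij
      obtain ⟨rfl, rfl⟩ := hij
      have hj := List.mem_range.1 hj
      obtain ⟨e1, e2⟩ := tab1 j hj
      by_cases hp : (j % 2 = 1 ↔ s ∈ I)
      · refine ⟨_, mem1 L s j, ?_⟩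
        rw [e1]
        exact hR s hs j hj hp
      · refine ⟨_, mem2 L s j (Or.inr ?_), ?_⟩
        · rw [e2]
          exact hs
        · rw [e2]
          refine hR s hs ((j + 1) % 12) (Nat.mod_lt _ (by norm_num)) ?_
          by_cases h : s ∈ I
          · simp only [h, iff_true] at hp ⊢
            omega
          · simp only [h, iff_false] at hp ⊢
            omega
    · obtain ⟨s, hs, hi⟩ := List.mem_flatMap.1 hi
      unfold pairIdx at hi
      rw [List.mem_append, List.mem_append] at hi
      have hpos := hG.pos s hs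
      rcases hi with hi | hi | hi
      · split_ifs at hi with hc
        · simp only [List.mem_cons, Prod.mk.injEq, List.not_mem_nil, or_false] at hi
          obtain ⟨rfl, rfl⟩ := hi
          by_cases h : p ∈ I
          · refine ⟨_, mem2 L p 12 (Or.inr hc), ?_⟩
            refine hR (p.1 + 1, p.2) hc 6 (by norm_num) ?_
            have h1 : (p.1 + 1, p.2) ∉ I := by
              intro h2
              exact hind p h _ h2 (Or.inl (Or.inl rfl))
            simp [h1]
          · refine ⟨_, mem1 L p 12, ?_⟩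
            exact hR p hs 0 (by norm_num) (by simp [h])
        · simp at hi
      · split_ifs at hi with hc
        · simp only [List.mem_cons, Prod.mk.injEq, List.not_mem_nil, or_false] at hi
          obtain ⟨rfl, rfl⟩ := hi
          by_cases h : p ∈ I
          · refine ⟨_, mem2 L p 13 (Or.inr hc), ?_⟩
            refine hR (p.1, p.2 + 1) hc 8 (by norm_num) ?_
            have h1 : (p.1, p.2 + 1) ∉ I := by
              intro h2
              exact hind p h _ h2 (Or.inr (Or.inl (Or.inl rfl)))
            simp [h1]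
          · refine ⟨_, mem1 L p 13, ?_⟩
            exact hR p hs 2 (by norm_num) (by simp [h])
        · simp at hi
      · split_ifs at hi with hc
        · simp only [List.mem_cons, Prod.mk.injEq, List.not_mem_nil, or_false] at hi
          obtain ⟨rfl, rfl⟩ := hi
          have hs1 : s.1 - 1 + 1 = s.1 := by omega
          by_cases h : s ∈ I
          · refine ⟨_, mem2 L _ 14 (Or.inr hc), ?_⟩
            refine hR (s.1 - 1, s.2 + 1) hc 10 (by norm_num) ?_
            have h1 : (s.1 - 1, s.2 + 1) ∉ I := by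
              intro h2
              exact hind s h _ h2 (Or.inr (Or.inr (Or.inl ⟨hs1, rfl⟩)))
            simp [h1]
          · refine ⟨_, mem1 L _ 14, ?_⟩
            have h2 := hR s hs 4 (by norm_num) (by simp [h])
            have h3 : sh (s.1 - 1, s.2) (tabE 14).1 = vl s.1 s.2 4 := by
              show vl (s.1 - 1 + 1) (s.2 + 0) 4 = vl s.1 s.2 4
              rw [hs1, add_zero]
            rw [h3]
            exact h2
        · simp at hi
    · obtain ⟨s, hs, hi⟩ := List.mem_flatMap.1 hi
      obtain ⟨k, hk, hij⟩ := List.mem_map.1 hi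
      simp only [Prod.mk.injEq] at hij
      obtain ⟨rfl, rfl⟩ := hij
      have hk := List.mem_range.1 hk
      have hτ := hG.kind s hs
      have hk0 := k0_lt I s
      by_cases hk3 : k < 3
      · obtain ⟨e1, e2⟩ := tab3 s.2 hτ k hk3
        by_cases hne : k = k0 I s
        · refine ⟨_, mem2 L s.1 _ (Or.inl ?_), ?_⟩
          · rw [e2]
            simp only
            omega
          · rw [e2]
            exact hK s hs ((k + 1) % 3) (Nat.mod_lt _ (by norm_num)) (by omega)
        · refine ⟨_, mem1 L s.1 _, ?_⟩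
          rw [e1]
          exact hK s hs k hk3 hne
      · obtain ⟨k', rfl⟩ : ∃ k', k = 3 + k' := ⟨k - 3, by omega⟩
        have hk' : k' < 3 := by omega
        have ht : 15 + 6 * s.2 + (3 + k') = 18 + 6 * s.2 + k' := by ring
        rw [ht]
        obtain ⟨e1, e2, e3⟩ := tab4 s.2 hτ k' hk'
        have e4 := tab4c s.2 hτ k' hk' s.1
        by_cases hne : k' = k0 I s
        · have hc : (corners s).getD k' (0, 0) ∈ I := by
            rw [hne]
            exact k0_mem I s (hcor s hs)
          have e5 : ((s.1, s.2) : Pt × ℕ) = s := rfl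
          rw [e5] at e4
          rw [← e4] at hc
          refine ⟨_, mem2 L s.1 _ (Or.inr (hIL _ hc)), ?_⟩
          exact hR _ (hIL _ hc) _ e2 (by simp [e3, hc])
        · refine ⟨_, mem1 L s.1 _, ?_⟩
          rw [e1]
          exact hK s hs k' hk' hne
  · refine (List.toFinset_card_le _).trans ?_
    rw [List.length_append, len_flatMap L (ringT I) 6 (fun x => by simp [ringT]),
      len_flatMap K (triT I) 2 (fun x => by simp [triT, two_length])]

end Pool.Agent.Q231.LMD
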