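import Pool.Agent.Q231.LMD.Stubs
import Pool.Agent.H49R2.PC.C2a
import Pool.Agent.H49R2.PC.C1

set_option autoImplicit false

/-!
Project LMD (helper277): the blocks of a formula have triangles.
-/

namespace Pool.Agent.Q231.LMD

open Pool.Agent.NPC Pool.Agent.NPC.Cnt Pool.Agent.H49R2.PC

namespace T2aux

theorem site_sub : ∀ a b : Bool, ∀ l ∈ cellB a b, ∀ p ∈ l, ∃ l' ∈ cellB true true, p ∈ l' := by
  decide

/-- All sites of a cell. -/
def st : List Pt := (6, 0) :: (cellB true true).flatten

theorem mem_st {i : ℕ} {p : Pt} (h : SiteP i p) : p ∈ st := by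
  rcases h with ⟨b, hb, hp⟩ | ⟨_, hp⟩
  · exact List.mem_cons_of_mem _ (List.mem_flatten.2 ⟨b, hb, hp⟩)
  · rw [hp]
    exact List.mem_cons_self

theorem cover : ∀ a b : Bool, ∀ l ∈ cellB a b ++ [[(6, 0)], [(6, 0), (6, 1)], [(4, 17)]],
    ∃ e ∈ triTab, e.1 = l := by
  decide +kernel

theorem check1 : ∀ e ∈ triTab, e.2.2 < 2 ∧ e.1 ≠ [] ∧ (∀ p ∈ e.1, p ∈ corners e.2) ∧
    (∀ c ∈ corners e.2, c ∉ e.1 → c ∉ st ∧ c ≠ (6, 0) ∧ c ≠ (17, 1) ∧ c ≠ (1, 5) ∧ c ≠ (4, 19)) ∧
    ∀ c ∈ corners e.2, ∀ c' ∈ corners e.2, c ≠ c' → adjP c c' := by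
  decide +kernel

theorem corners_posn (n m i j : ℕ) (t : Pt × ℕ) :
    corners (posn n m i j t.1, t.2) = (corners t).map (posn n m i j) := by
  unfold corners
  by_cases h : t.2 = 0
  · simp only [if_pos h, List.map_cons, List.map_nil]
    rfl
  · simp only [if_neg h, List.map_cons, List.map_nil]
    rfl

theorem isBl_iff (L : List Pt) (t : Pt × ℕ) (b : List Pt) : isBl L t b = true ↔
    (∀ c ∈ corners t, c ∈ L → c ∈ b) ∧ ∀ c ∈ b, c ∈ corners t := by
  unfold isBl
  simp only [Bool.and_eq_true, List.all_eq_true, decide_eq_true_eq]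

theorem S161 (i : ℕ) : SiteP i (16, 1) := Or.inl (by decide)
theorem S25 (i : ℕ) : SiteP i (2, 5) := Or.inl (by decide)
theorem S418 (i : ℕ) : SiteP i (4, 18) := Or.inl (by decide)
theorem S417 (i : ℕ) : SiteP i (4, 17) := Or.inl (by decide)
theorem S61 (i : ℕ) : SiteP i (6, 1) := Or.inl (by decide)

/-- The local blocks. -/
theorem local_site {n i : ℕ} {a b : Bool} {l : List Pt}
    (hl : l ∈ (cellB a b ++ (if i = 0 then [[(6, 0)], [(6, 0), (6, 1)]] else [])) ++
      (if i + 1 = n then [[(4, 17)]] else [])) :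
    (∀ p ∈ l, SiteP i p) ∧ l ∈ cellB a b ++ [[(6, 0)], [(6, 0), (6, 1)], [(4, 17)]] := by
  rw [List.mem_append, List.mem_append] at hl
  rcases hl with (hl | hl) | hl
  · exact ⟨fun p hp => Or.inl (site_sub a b l hl p hp), List.mem_append_left _ hl⟩
  · split_ifs at hl with h
    · simp only [List.mem_cons, List.not_mem_nil, or_false] at hl
      rcases hl with rfl | rfl
      · refine ⟨fun p hp => ?_, by simp⟩
        simp only [List.mem_cons, List.not_mem_nil, or_false] at hp
        subst hp
        exact Or.inr ⟨h, rfl⟩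
      · refine ⟨fun p hp => ?_, by simp⟩
        simp only [List.mem_cons, List.not_mem_nil, or_false] at hp
        rcases hp with rfl | rfl
        · exact Or.inr ⟨h, rfl⟩
        · exact S61 i
    · simp at hl
  · split_ifs at hl with h
    · simp only [List.mem_cons, List.not_mem_nil, or_false] at hl
      subst hl
      refine ⟨fun p hp => ?_, by simp⟩
      simp only [List.mem_cons, List.not_mem_nil, or_false] at hp
      subst hp
      exact S417 i
    · simp at hl

/-- All sites are sites of cells. -/
theorem sites {n m i j : ℕ} {a b : Bool} (hi : i < n) (hj : j < m) {l : List Pt}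
    (hl : l ∈ cellBlocks n m i j a b) {s : Pt} (hs : s ∈ l) :
    ∃ i' < n, ∃ j' < m, ∃ q, SiteP i' q ∧ s = posn n m i' j' q := by
  unfold cellBlocks at hl
  rw [List.mem_append, List.mem_append] at hl
  rcases hl with hl | hl | hl
  · obtain ⟨l', hl', rfl⟩ := List.mem_map.1 hl
    obtain ⟨p, hp, rfl⟩ := List.mem_map.1 hs
    exact ⟨i, hi, j, hj, p, (local_site hl').1 p hp, rfl⟩
  · split_ifs at hl with h
    · simp only [List.mem_cons, List.not_mem_nil, or_false] at hl
      subst hl
      simp only [List.mem_cons, List.not_mem_nil, or_false] at hs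
      rcases hs with rfl | rfl
      · exact ⟨i, hi, j, hj, _, S161 i, rfl⟩
      · exact ⟨i, hi, j + 1, h, _, S25 i, rfl⟩
    · simp at hl
  · split_ifs at hl with h
    · simp only [List.mem_cons, List.not_mem_nil, or_false] at hl
      subst hl
      simp only [List.mem_cons, List.not_mem_nil, or_false] at hs
      rcases hs with rfl | rfl
      · exact ⟨i, hi, j, hj, _, S418 i, rfl⟩
      · exact ⟨i + 1, h, j, hj, _, S61 _, rfl⟩
    · simp at hl

theorem key {n m : ℕ} (S : List Pt) (hS : ∀ s ∈ S, ∃ i' < n, ∃ j' < m, ∃ q, SiteP i' q ∧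
    s = posn n m i' j' q) {i j : ℕ} (hi : i < n) (hj : j < m) {a b : Bool} {l : List Pt}
    (hl : l ∈ cellBlocks n m i j a b) : ∃ t : Pt × ℕ, t.2 < 2 ∧ isBl S t l = true := by
  unfold cellBlocks at hl
  rw [List.mem_append, List.mem_append] at hl
  rcases hl with hl | hl | hl
  · obtain ⟨l', hl', rfl⟩ := List.mem_map.1 hl
    obtain ⟨hsite, hmem⟩ := local_site hl'
    obtain ⟨e, he, hel⟩ := cover a b l' hmem
    obtain ⟨c1, c2, c3, c4, c5⟩ := check1 e he
    rw [hel] at c2 c3 c4
    refine ⟨(posn n m i j e.2.1, e.2.2), c1, ?_⟩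
    rw [isBl_iff, corners_posn]
    constructor
    · intro c hc hcS
      obtain ⟨c0, hc0, rfl⟩ := List.mem_map.1 hc
      by_contra hnot
      have hc0l : c0 ∉ l' := fun h => hnot (List.mem_map.2 ⟨c0, h, rfl⟩)
      obtain ⟨d1, d2, d3, d4, d5⟩ := c4 c0 hc0 hc0l
      obtain ⟨p, hp⟩ := List.exists_mem_of_ne_nil l' c2
      have hne : p ≠ c0 := fun h => hc0l (h ▸ hp)
      have hadj : adjP p c0 := c5 p (c3 p hp) c0 hc0 hne
      obtain ⟨i', hi', j', hj', q', hq', he'⟩ := hS _ hcS
      have hadj2 : adjP (posn n m i j p) (posn n m i' j' q') := by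
        rw [← he']
        exact C1aux.posn_adj hadj
      rcases C2a_ok n m i j i' j' p q' hi hi' hj hj' (hsite p hp) hq' hadj2 with
        ⟨rfl, rfl, h⟩ | ⟨rfl, rfl, rfl, rfl⟩ | ⟨rfl, rfl, rfl, rfl⟩ | ⟨rfl, rfl, rfl, rfl⟩ |
        ⟨rfl, rfl, rfl, rfl⟩
      · have h2 := C1aux.posn_inj he'
        rw [← h2] at hq'
        exact d1 (mem_st hq')
      · apply d3
        obtain ⟨x, y⟩ := c0
        simp only [posn, Prod.mk.injEq] at he' ⊢
        omega
      · apply d4
        obtain ⟨x, y⟩ := c0
        simp only [posn, Prod.mk.injEq] at he' ⊢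
        omega
      · apply d5
        obtain ⟨x, y⟩ := c0
        simp only [posn, Prod.mk.injEq] at he' ⊢
        omega
      · apply d2
        obtain ⟨x, y⟩ := c0
        simp only [posn, Prod.mk.injEq] at he' ⊢
        omega
    · intro c hc
      obtain ⟨p, hp, rfl⟩ := List.mem_map.1 hc
      exact List.mem_map.2 ⟨p, c3 p hp, rfl⟩
  · split_ifs at hl with h
    · simp only [List.mem_cons, List.not_mem_nil, or_false] at hl
      subst hl
      have e1 : posn n m i (j + 1) (2, 5) = ((posn n m i j (16, 1)).1 + 1, (posn n m i j (16, 1)).2) := by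
        simp only [posn, Prod.mk.injEq]
        omega
      refine ⟨(posn n m i j (16, 1), 0), by norm_num, ?_⟩
      rw [isBl_iff]
      constructor
      · intro c hc hcS
        simp only [corners, if_true, List.mem_cons, List.not_mem_nil, or_false] at hc
        rcases hc with rfl | rfl | rfl
        · exact List.mem_cons_self
        · rw [e1]
          simp
        · exfalso
          obtain ⟨i', hi', j', hj', q', hq', he'⟩ := hS _ hcS
          have e2 : ((posn n m i j (16, 1)).1, (posn n m i j (16, 1)).2 + 1) =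
              posn n m i j (16, 2) := rfl
          rw [e2] at he'
          have hadj2 : adjP (posn n m i j (16, 1)) (posn n m i' j' q') := by
            rw [← he']
            exact C1aux.posn_adj (by decide)
          rcases C2a_ok n m i j i' j' _ q' hi hi' hj hj' (S161 i) hq' hadj2 with
            ⟨rfl, rfl, h⟩ | ⟨rfl, rfl, h3, rfl⟩ | ⟨rfl, rfl, h3, h4⟩ | ⟨rfl, rfl, h4, h3⟩ |
            ⟨rfl, rfl, h3, h4⟩
          · have h2 := C1aux.posn_inj he'
            rw [← h2] at hq'
            exact absurd (mem_st hq') (by decide)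
          · simp only [posn, Prod.mk.injEq] at he'
            omega
          · exact absurd h4 (by decide)
          · exact absurd h4 (by decide)
          · exact absurd h4 (by decide)
      · intro c hc
        simp only [List.mem_cons, List.not_mem_nil, or_false] at hc
        rcases hc with rfl | rfl
        · simp [corners]
        · rw [e1]
          simp [corners]
    · simp at hl
  · split_ifs at hl with h
    · simp only [List.mem_cons, List.not_mem_nil, or_false] at hl
      subst hl
      have e1 : posn n m (i + 1) j (6, 1) = ((posn n m i j (4, 18)).1, (posn n m i j (4, 18)).2 + 1) := by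
        simp only [posn, Prod.mk.injEq]
        omega
      refine ⟨(posn n m i j (4, 18), 0), by norm_num, ?_⟩
      rw [isBl_iff]
      constructor
      · intro c hc hcS
        simp only [corners, if_true, List.mem_cons, List.not_mem_nil, or_false] at hc
        rcases hc with rfl | rfl | rfl
        · exact List.mem_cons_self
        · exfalso
          obtain ⟨i', hi', j', hj', q', hq', he'⟩ := hS _ hcS
          have e2 : ((posn n m i j (4, 18)).1 + 1, (posn n m i j (4, 18)).2) =
              posn n m i j (5, 18) := rfl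
          rw [e2] at he'
          have hadj2 : adjP (posn n m i j (4, 18)) (posn n m i' j' q') := by
            rw [← he']
            exact C1aux.posn_adj (by decide)
          rcases C2a_ok n m i j i' j' _ q' hi hi' hj hj' (S418 i) hq' hadj2 with
            ⟨rfl, rfl, h⟩ | ⟨rfl, rfl, h4, h3⟩ | ⟨rfl, rfl, h3, h4⟩ | ⟨rfl, rfl, h4, rfl⟩ |
            ⟨rfl, rfl, h3, h4⟩
          · have h2 := C1aux.posn_inj he'
            rw [← h2] at hq'
            exact absurd (mem_st hq') (by decide)
          · exact absurd h4 (by decide)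
          · exact absurd h4 (by decide)
          · simp only [posn, Prod.mk.injEq] at he'
            omega
          · exact absurd h4 (by decide)
        · rw [e1]
          simp
      · intro c hc
        simp only [List.mem_cons, List.not_mem_nil, or_false] at hc
        rcases hc with rfl | rfl
        · simp [corners]
        · rw [e1]
          simp [corners]
    · simp at hl

theorem cell_of {φ : CNF ℕ} {b : List Pt} (hb : b ∈ blocksOf φ) :
    ∃ i < (rows φ).length, ∃ j < φ.length, ∃ x y : Bool,
      b ∈ cellBlocks (rows φ).length φ.length i j x y := by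
  unfold blocksOf at hb
  obtain ⟨r, hr, hb⟩ := List.mem_flatMap.1 hb
  obtain ⟨c, hc, hb⟩ := List.mem_flatMap.1 hb
  have h1 : r.2 < (rows φ).length := by
    obtain ⟨x, k⟩ := r
    have := List.snd_lt_of_mem_zipIdx hr
    simpa using this
  have h2 : c.2 < φ.length := by
    obtain ⟨x, k⟩ := c
    have := List.snd_lt_of_mem_zipIdx hc
    simpa using this
  exact ⟨r.2, h1, c.2, h2, _, _, hb⟩

end T2aux

open T2aux in
theorem T2_ok : S_T2 := by
  intro φ b hb
  obtain ⟨i, hi, j, hj, x, y, hbc⟩ := cell_of hb
  refine key (latS (blocksOf φ)) ?_ hi hj hbc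
  intro s hs
  unfold latS at hs
  obtain ⟨b', hb', hsb'⟩ := List.mem_flatten.1 (List.mem_dedup.1 hs)
  obtain ⟨i', hi', j', hj', x', y', hbc'⟩ := cell_of hb'
  exact sites hi' hj' hbc' hsb'

end Pool.Agent.Q231.LMD
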